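import Pool.Agent.Helper509.BD.Final

/-!
# MP_c77635_an, Q1: the answer is negative, even for Schauder bases

There is a bidemocratic Schauder basis of `ℓ₂` such that `ℓ_{2,q} ↪ ℓ₂` fails for every `q > 1`.
The Gram matrix of the basis is `1 + W*W`, where `W` maps the `n`-th unit vector to the normalized
indicator of the Fenwick interval `(n - 2^{v(n)}, n]`.
-/

set_option autoImplicit false

universe u

namespace Pool.Agent.Results.MP_c77635_an.NoSqueezing

open Pool.Agent.Helper509.BD

/-- Over `𝕜 = ℝ` or `ℂ` there is a bidemocratic basis of `ℓ₂`, which is moreover a Schauder basis,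
such that for no `q > 1` the embedding `ℓ_{2,q} ↪ ℓ₂` through the basis holds; in particular there
is no pair `1 < q < r < ∞` such that both embeddings hold. -/
theorem result (𝕜 : Type u) [RCLike 𝕜] :
    ∃ (x : ℕ → H2 𝕜) (xs : ℕ → StrongDual 𝕜 (H2 𝕜)),
      IsBasis x xs ∧ IsSchauder x xs ∧ Bidemocratic x xs ∧
      (∀ q : ℝ, 1 < q → ¬ EmbInto q x) ∧
      ¬ ∃ q r : ℝ, 1 < q ∧ q < r ∧ EmbInto q x ∧ EmbFrom r xs :=
  ⟨x, xs, isBasis, schauder, bidem, not_emb,
    fun ⟨q, _, hq, _, h, _⟩ => not_emb q hq h⟩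

end Pool.Agent.Results.MP_c77635_an.NoSqueezing
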